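import Pool.Agent.Work.MP_5b14b0_lc.Asm
import Pool.Agent.Work.MP_5b14b0_lc.Parse
import Pool.Agent.Work.MP_5b14b0_lc.Quad
import Pool.Agent.Work.MP_5b14b0_lc.CompV
import Pool.Agent.Work.MP_5b14b0_lc.CompS
import Pool.Agent.Work.MP_5b14b0_lc.CompC
import Pool.Agent.Work.MP_5b14b0_lc.Decode
import Pool.Agent.Work.MP_5b14b0_lc.MembF
import Pool.Agent.Work.MP_5b14b0_lc.MembG
import Pool.Agent.Work.MP_5b14b0_lc.Red
import Pool.Agent.Work.MP_5b14b0_lc.Glue
import Pool.Agent.Work.MP_5b14b0_lc.Trans
import Pool.Agent.Work.MP_5b14b0_lc.Polygon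
import Pool.Agent.Work.MP_5b14b0_lc.GadK
import Pool.Agent.Work.MP_5b14b0_lc.GadA
import Pool.Agent.Work.MP_5b14b0_lc.GadL
import Pool.Agent.Work.MP_5b14b0_lc.Sym
import Pool.Agent.Work.MP_5b14b0_lc.Init
import Pool.Agent.Work.MP_5b14b0_lc.Std
import Pool.Agent.Work.MP_5b14b0_lc.Branch
import Pool.Agent.Work.MP_5b14b0_lc.Build
import Pool.Agent.Work.MP_5b14b0_lc.SK
import Pool.Agent.Work.MP_5b14b0_lc.SA
import Pool.Agent.Work.MP_5b14b0_lc.SL
import Pool.Agent.Work.MP_5b14b0_lc.SLine
import Pool.Agent.Work.MP_5b14b0_lc.Sound
import Pool.Agent.Work.MP_5b14b0_lc.Up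
import Pool.Agent.Work.MP_5b14b0_lc.Down

/-!
# Inscribed realizability of polytopes is complete for the existential theory of the reals

The decision problem `INSC d` and the class `ER` (with polynomial-time many-one reductions, Mathlib
machines) are defined in `Pool.Agent.Work.MP_5b14b0_lc.Defs`.
-/

set_option autoImplicit false

namespace Pool.Agent.Results.MP_5b14b0_lc.InscribedERComplete

open Pool.Agent.Work.MP_5b14b0_lc

/-- **For every fixed `d ≥ 4` the problem `INSC d` is complete for the existential theory of the
reals**: given a finite set `V` and a list of subsets, is there a `d`-polytope inscribed in a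
sphere whose facets have exactly these vertex sets? -/
theorem result : ∀ d : ℕ, 4 ≤ d → ERComplete (INSC d) := by
  have hA : ClaimA := claimA claimPolygon
  have hK : ClaimK := claimK claimPolygon
  have hB : ClaimBranch := claimBranch claimGlue claimTransP claimTransQ hA claimL
  have hBuild : ClaimBuild := claimBuild (claimInit claimPolygon) claimStd claimSym hK claimGlue
    claimTransP claimTransQ claimTransS hB
  have hSound : ClaimSound := claimSound claimSK claimSA claimSL claimSLine
  exact main_of claimParse claimQuad claimCompPtf claimCompValid claimCompSound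
    claimCompComplete claimRedPtf claimLists hBuild hSound claimUp claimDown claimDecode
    MF.claimMembFormula claimMembGeom

end Pool.Agent.Results.MP_5b14b0_lc.InscribedERComplete
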